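import Mathlib

/-!
The Fejér kernel as a Fourier transform: `fej L w = ∫ tri L v e^{2πivw} dv`, with
`tri L v = max 0 (1 - |v|/L)`, `fej L w = L sinc(πLw)^2 ≥ 0`, `∫ fej L = 1`.
-/

open MeasureTheory Filter Topology Real FourierTransform

namespace Pool.Agent.PNT

noncomputable def tri (L v : ℝ) : ℝ := max 0 (1 - |v| / L)

noncomputable def fej (L w : ℝ) : ℝ := L * (sinc (π * L * w)) ^ 2

theorem tri_nonneg (L v : ℝ) : 0 ≤ tri L v := le_max_left _ _

theorem tri_continuous (L : ℝ) : Continuous (tri L) := by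
  unfold tri; fun_prop

theorem tri_zero (L : ℝ) : tri L 0 = 1 := by simp [tri]

theorem tri_le_one {L : ℝ} (hL : 0 < L) (v : ℝ) : tri L v ≤ 1 := by
  unfold tri
  refine max_le (by norm_num) ?_
  have : 0 ≤ |v| / L := by positivity
  linarith

theorem tri_eq_zero {L v : ℝ} (hL : 0 < L) (h : L ≤ |v|) : tri L v = 0 := by
  unfold tri
  refine max_eq_left ?_
  have : 1 ≤ |v| / L := by rwa [le_div_iff₀ hL, one_mul]
  linarith

theorem tri_support {L : ℝ} (hL : 0 < L) : HasCompactSupport (tri L) := by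
  refine HasCompactSupport.of_support_subset_isCompact (isCompact_Icc (a := -L) (b := L)) ?_
  intro v hv
  by_contra h
  apply hv
  refine tri_eq_zero hL ?_
  rw [Set.mem_Icc, not_and_or] at h
  rcases h with h | h
  · rw [not_le] at h
    rw [abs_of_neg (by linarith)]; linarith
  · rw [not_le] at h
    rw [abs_of_pos (by linarith)]; linarith

theorem tri_integrable {L : ℝ} (hL : 0 < L) : Integrable (tri L) :=
  (tri_continuous L).integrable_of_hasCompactSupport (tri_support hL)

theorem fej_nonneg {L : ℝ} (hL : 0 < L) (w : ℝ) : 0 ≤ fej L w := by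
  unfold fej; positivity

theorem fej_continuous (L : ℝ) : Continuous (fej L) := by
  unfold fej
  have := continuous_sinc
  fun_prop

theorem fej_neg (L w : ℝ) : fej L (-w) = fej L w := by
  unfold fej
  rw [show π * L * -w = -(π * L * w) by ring, sinc_neg]

theorem fej_le {L : ℝ} (hL : 0 < L) (w : ℝ) : fej L w ≤ L := by
  unfold fej
  have h1 := abs_sinc_le_one (π * L * w)
  have h2 : sinc (π * L * w) ^ 2 ≤ 1 := by
    rw [← sq_abs]
    nlinarith [abs_nonneg (sinc (π * L * w))]
  nlinarith

theorem fej_le_inv {L : ℝ} (hL : 0 < L) {w : ℝ} (hw : w ≠ 0) : fej L w ≤ 1 / (L * w ^ 2) := by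
  unfold fej
  have hpi : 0 < π := pi_pos
  have hne : π * L * w ≠ 0 := by positivity
  rw [sinc_of_ne_zero hne, div_pow]
  have h1 : sin (π * L * w) ^ 2 ≤ 1 := sin_sq_le_one _
  have hpos : 0 < w ^ 2 := by positivity
  rw [← mul_div_assoc, div_le_div_iff₀ (by positivity) (by positivity)]
  have h3 : 1 ≤ π ^ 2 := by nlinarith [pi_gt_three]
  calc L * sin (π * L * w) ^ 2 * (L * w ^ 2) = (L ^ 2 * w ^ 2) * sin (π * L * w) ^ 2 := by ring
    _ ≤ (L ^ 2 * w ^ 2) * 1 := by gcongr
    _ ≤ (L ^ 2 * w ^ 2) * π ^ 2 := by gcongr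
    _ = 1 * (π * L * w) ^ 2 := by ring

open Complex in
theorem int_right {L : ℝ} (hL : 0 < L) {c : ℂ} (hc : c ≠ 0) :
    ∫ v in (0 : ℝ)..L, ((1 - v / L : ℝ) : ℂ) * cexp (c * v) =
      cexp (c * L) / (L * c ^ 2) - 1 / c - 1 / (L * c ^ 2) := by
  have hLc : (L : ℂ) ≠ 0 := by exact_mod_cast hL.ne'
  have key : ∀ x : ℝ, HasDerivAt (fun v : ℝ => ((1 - v / L : ℝ) : ℂ) * cexp (c * v) / c +
      cexp (c * v) / (L * c ^ 2)) (((1 - x / L : ℝ) : ℂ) * cexp (c * x)) x := by
    intro x
    have h1 : HasDerivAt (fun v : ℝ => cexp (c * v)) (cexp (c * x) * c) x := by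
      have := ((Complex.hasDerivAt_exp (c * x)).comp (x : ℂ)
        ((hasDerivAt_id (x : ℂ)).const_mul c)).comp_ofReal
      simpa using this
    have h2 : HasDerivAt (fun v : ℝ => ((1 - v / L : ℝ) : ℂ)) (-(1 / L) : ℂ) x := by
      have : HasDerivAt (fun v : ℝ => (1 - v / L : ℝ)) (-(1 / L)) x := by
        simpa using ((hasDerivAt_id x).div_const L).const_sub 1
      have h := this.ofReal_comp
      push_cast at h ⊢
      exact h
    have h3 := ((h2.mul h1).div_const c).add (h1.div_const (L * c ^ 2))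
    refine h3.congr_deriv ?_
    field_simp
    ring
  rw [intervalIntegral.integral_eq_sub_of_hasDerivAt (fun x _ => key x)]
  · simp only [ofReal_zero, mul_zero, Complex.exp_zero]
    have : (1 - L / L : ℝ) = 0 := by field_simp; ring
    rw [this]
    simp
    ring
  · apply Continuous.intervalIntegrable
    fun_prop

open Complex in
theorem int_left {L : ℝ} (hL : 0 < L) {c : ℂ} (hc : c ≠ 0) :
    ∫ v in (-L)..(0 : ℝ), ((1 + v / L : ℝ) : ℂ) * cexp (c * v) =
      cexp (-(c * L)) / (L * c ^ 2) + 1 / c - 1 / (L * c ^ 2) := by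
  have hLc : (L : ℂ) ≠ 0 := by exact_mod_cast hL.ne'
  have h := int_right hL (c := -c) (neg_ne_zero.mpr hc)
  have h2 : ∫ v in (-L)..(0 : ℝ), ((1 + v / L : ℝ) : ℂ) * cexp (c * v) =
      ∫ v in (0 : ℝ)..L, ((1 - v / L : ℝ) : ℂ) * cexp (-c * v) := by
    have := intervalIntegral.integral_comp_neg (a := 0) (b := L)
      (fun v : ℝ => ((1 + v / L : ℝ) : ℂ) * cexp (c * v))
    rw [neg_zero] at this
    rw [← this]
    refine intervalIntegral.integral_congr fun x _ => ?_
    show ((1 + (-x) / L : ℝ) : ℂ) * cexp (c * ((-x : ℝ) : ℂ)) =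
      ((1 - x / L : ℝ) : ℂ) * cexp (-c * x)
    congr 2
    · push_cast; ring
    · push_cast; ring
  rw [h2, h]
  field_simp
  ring

open Complex in
theorem fourier_tri_aux {L : ℝ} (hL : 0 < L) {w : ℝ} (hw : w ≠ 0) :
    ∫ v, (tri L v : ℂ) * cexp (2 * π * I * w * v) = (fej L w : ℂ) := by
  have hLc : (L : ℂ) ≠ 0 := by exact_mod_cast hL.ne'
  have hwc : (w : ℂ) ≠ 0 := by exact_mod_cast hw
  set c : ℂ := 2 * π * I * w with hcdef
  have hc : c ≠ 0 := by
    rw [hcdef]
    have : (π : ℂ) ≠ 0 := by exact_mod_cast pi_ne_zero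
    simp [this, hw]
  have hsupp : Function.support (fun v : ℝ => (tri L v : ℂ) * cexp (c * v)) ⊆ Set.Ioc (-L) L := by
    intro v hv
    by_contra h
    apply hv
    have : L ≤ |v| := by
      rw [Set.mem_Ioc, not_and_or] at h
      rcases h with h | h
      · rw [not_lt] at h
        rw [abs_of_nonpos (by linarith)]; linarith
      · rw [not_le] at h
        rw [abs_of_pos (by linarith)]; linarith
    simp [tri_eq_zero hL this]
  rw [← intervalIntegral.integral_eq_integral_of_support_subset hsupp]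
  have hcont : Continuous (fun v : ℝ => (tri L v : ℂ) * cexp (c * v)) := by
    have := tri_continuous L
    fun_prop
  rw [← intervalIntegral.integral_add_adjacent_intervals (b := 0)
    (hcont.intervalIntegrable _ _) (hcont.intervalIntegrable _ _)]
  have e1 : ∫ v in (-L)..(0 : ℝ), (tri L v : ℂ) * cexp (c * v) =
      ∫ v in (-L)..(0 : ℝ), ((1 + v / L : ℝ) : ℂ) * cexp (c * v) := by
    refine intervalIntegral.integral_congr fun v hv => ?_
    rw [Set.uIcc_of_le (by linarith)] at hv
    congr 2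
    unfold tri
    rw [abs_of_nonpos hv.2, max_eq_right]
    · ring
    · have : -v / L ≤ 1 := by rw [div_le_one hL]; linarith [hv.1]
      linarith
  have e2 : ∫ v in (0 : ℝ)..L, (tri L v : ℂ) * cexp (c * v) =
      ∫ v in (0 : ℝ)..L, ((1 - v / L : ℝ) : ℂ) * cexp (c * v) := by
    refine intervalIntegral.integral_congr fun v hv => ?_
    rw [Set.uIcc_of_le (by linarith)] at hv
    congr 2
    unfold tri
    rw [abs_of_nonneg hv.1, max_eq_right]
    have : v / L ≤ 1 := by rw [div_le_one hL]; linarith [hv.2]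
    linarith
  rw [e1, e2, int_left hL hc, int_right hL hc]
  have e3 : cexp (-(c * L)) / (L * c ^ 2) + 1 / c - 1 / (L * c ^ 2) +
      (cexp (c * L) / (L * c ^ 2) - 1 / c - 1 / (L * c ^ 2)) =
      (cexp (c * L) + cexp (-(c * L)) - 2) / (L * c ^ 2) := by ring
  rw [e3]
  have e4 : cexp (c * L) + cexp (-(c * L)) = 2 * Complex.cos (2 * (π * L * w : ℝ)) := by
    rw [Complex.cos]
    have : c * L = 2 * (π * L * w : ℝ) * I := by rw [hcdef]; push_cast; ring
    rw [this]
    have h5 : -(2 * ((π * L * w : ℝ) : ℂ) * I) = -(2 * ((π * L * w : ℝ) : ℂ)) * I := by ring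
    rw [h5]
    ring
  rw [e4, Complex.cos_two_mul]
  have hpi : (π : ℂ) ≠ 0 := by exact_mod_cast pi_ne_zero
  have hne : π * L * w ≠ 0 := by positivity
  unfold fej
  rw [sinc_of_ne_zero hne]
  have h6 : Complex.cos ((π * L * w : ℝ) : ℂ) ^ 2 = 1 - Complex.sin ((π * L * w : ℝ) : ℂ) ^ 2 := by
    have := Complex.sin_sq_add_cos_sq ((π * L * w : ℝ) : ℂ)
    linear_combination this
  rw [h6, hcdef]
  push_cast
  have hI : (I : ℂ) ^ 2 = -1 := Complex.I_sq
  field_simp
  rw [hI]
  ring

open Complex in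
theorem fourier_tri {L : ℝ} (hL : 0 < L) (w : ℝ) :
    ∫ v, (tri L v : ℂ) * cexp (2 * π * I * w * v) = (fej L w : ℂ) := by
  by_cases hw : w = 0
  · -- by continuity
    have h1 : Continuous (fun w : ℝ => ∫ v, (tri L v : ℂ) * cexp (2 * π * I * w * v)) := by
      refine continuous_of_dominated (bound := fun v => tri L v) ?_ ?_ (tri_integrable hL) ?_
      · intro w
        have := tri_continuous L
        exact (by fun_prop : Continuous _).aestronglyMeasurable
      · intro w
        refine Eventually.of_forall fun v => ?_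
        rw [norm_mul, show (2 * π * I * w * v : ℂ) = ((2 * π * w * v : ℝ) : ℂ) * I by
          push_cast; ring, Complex.norm_exp_ofReal_mul_I, mul_one, Complex.norm_real,
          Real.norm_of_nonneg (tri_nonneg _ _)]
      · refine Eventually.of_forall fun v => ?_
        fun_prop
    have h2 : Continuous (fun w : ℝ => (fej L w : ℂ)) :=
      Complex.continuous_ofReal.comp (fej_continuous L)
    have h3 : Set.EqOn (fun w : ℝ => ∫ v, (tri L v : ℂ) * cexp (2 * π * I * w * v))
        (fun w : ℝ => (fej L w : ℂ)) {0}ᶜ := fun w hw => fourier_tri_aux hL hw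
    have h4 := Continuous.ext_on (dense_compl_singleton (0 : ℝ)) h1 h2 h3
    exact congrFun h4 w
  · exact fourier_tri_aux hL hw

theorem fej_integrable {L : ℝ} (hL : 0 < L) : Integrable (fej L) := by
  have h1 : Integrable (fun w : ℝ => (L + 1 / L) * (1 + w ^ 2)⁻¹) :=
    integrable_inv_one_add_sq.const_mul _
  refine h1.mono' (fej_continuous L).aestronglyMeasurable (Eventually.of_forall fun w => ?_)
  rw [Real.norm_of_nonneg (fej_nonneg hL w), ← div_eq_mul_inv, le_div_iff₀ (by positivity)]
  by_cases hw : w = 0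
  · subst hw
    have := fej_le hL 0
    have h2 : 0 < 1 / L := by positivity
    simp
    have : 0 < L⁻¹ := by positivity
    linarith
  · have a1 := fej_le hL w
    have a2 := fej_le_inv hL hw
    have hw2 : 0 < w ^ 2 := by positivity
    have a3 : fej L w * w ^ 2 ≤ 1 / L := by
      calc fej L w * w ^ 2 ≤ 1 / (L * w ^ 2) * w ^ 2 := by gcongr
        _ = 1 / L := by field_simp
    linarith

open Complex in
theorem integral_fej {L : ℝ} (hL : 0 < L) : ∫ w, fej L w = 1 := by
  have hcont : Continuous (fun v : ℝ => (tri L v : ℂ)) :=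
    Complex.continuous_ofReal.comp (tri_continuous L)
  have hint : Integrable (fun v : ℝ => (tri L v : ℂ)) := (tri_integrable hL).ofReal
  have hF : 𝓕 (fun v : ℝ => (tri L v : ℂ)) = fun w => (fej L w : ℂ) := by
    ext w
    rw [Real.fourier_real_eq_integral_exp_smul]
    rw [← fej_neg, ← fourier_tri hL (-w)]
    refine integral_congr_ae (Eventually.of_forall fun v => ?_)
    simp only [smul_eq_mul]
    rw [mul_comm]
    congr 2
    push_cast
    ring
  have h1 := Continuous.fourierInv_fourier_eq hcont hint (by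
    rw [hF]; exact (fej_integrable hL).ofReal)
  have h2 := congrFun h1 0
  rw [hF, Real.fourierInv_eq'] at h2
  simp only [RCLike.inner_apply, map_zero, mul_zero, zero_mul, ofReal_zero, Complex.exp_zero,
    one_smul, tri_zero, ofReal_one] at h2
  have h3 : ((∫ w, fej L w : ℝ) : ℂ) = 1 := by
    rw [← h2]
    exact (integral_ofReal (f := fej L)).symm
  exact_mod_cast h3

end Pool.Agent.PNT
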