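import Mathlib
import Pool.Agent.PNT.Fejer

/-!
Wiener–Ikehara theorem (for nonnegative coefficients with `∑_{k ≤ n} f k ≤ B n`), by the
Fejér kernel.
-/

open MeasureTheory Filter Topology Real FourierTransform Set

namespace Pool.Agent.PNT

/-- `∑_{1 ≤ k ≤ x} f k` -/
noncomputable def psum (f : ℕ → ℝ) (x : ℝ) : ℝ := ∑ k ∈ Finset.Icc 1 ⌊x⌋₊, f k

/-- `φ(u) = e^{-u} ∑_{k ≤ e^u} f k` -/
noncomputable def phi (f : ℕ → ℝ) (u : ℝ) : ℝ := psum f (exp u) * exp (-u)

theorem psum_nonneg {f : ℕ → ℝ} (hf : ∀ n, 0 ≤ f n) (x : ℝ) : 0 ≤ psum f x :=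
  Finset.sum_nonneg fun k _ => hf k

theorem psum_mono {f : ℕ → ℝ} (hf : ∀ n, 0 ≤ f n) : Monotone (psum f) := by
  intro x y h
  refine Finset.sum_le_sum_of_subset_of_nonneg ?_ fun k _ _ => hf k
  exact Finset.Icc_subset_Icc le_rfl (Nat.floor_mono h)

theorem phi_nonneg {f : ℕ → ℝ} (hf : ∀ n, 0 ≤ f n) (u : ℝ) : 0 ≤ phi f u :=
  mul_nonneg (psum_nonneg hf _) (exp_pos _).le

theorem phi_le {f : ℕ → ℝ} {B : ℝ} (hB0 : 0 ≤ B) (hB : ∀ n : ℕ, psum f n ≤ B * n) (u : ℝ) :
    phi f u ≤ B := by
  unfold phi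
  have h1 : psum f (exp u) = psum f (⌊exp u⌋₊ : ℝ) := by unfold psum; simp
  have h2 := hB ⌊exp u⌋₊
  have h3 : (⌊exp u⌋₊ : ℝ) ≤ exp u := Nat.floor_le (exp_pos u).le
  rw [h1]
  calc psum f (⌊exp u⌋₊ : ℝ) * exp (-u) ≤ (B * exp u) * exp (-u) := by
        gcongr
        exact h2.trans (by gcongr)
    _ = B := by rw [mul_assoc, ← exp_add]; simp

/-- the Tauberian property -/
theorem phi_taub {f : ℕ → ℝ} (hf : ∀ n, 0 ≤ f n) {u v : ℝ} (h : u ≤ v) :
    phi f u * exp (-(v - u)) ≤ phi f v := by
  unfold phi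
  rw [mul_assoc, ← exp_add]
  have : -u + -(v - u) = -v := by ring
  rw [this]
  gcongr
  exact psum_mono hf (exp_le_exp.mpr h)

theorem psum_measurable (f : ℕ → ℝ) : Measurable (psum f) :=
  (measurable_from_nat (f := fun n : ℕ => ∑ k ∈ Finset.Icc 1 n, f k)).comp Nat.measurable_floor

theorem phi_measurable (f : ℕ → ℝ) : Measurable (phi f) := by
  unfold phi
  exact ((psum_measurable f).comp measurable_exp).mul (by fun_prop)

theorem phi_norm_le {f : ℕ → ℝ} (hf : ∀ n, 0 ≤ f n) {B : ℝ} (hB0 : 0 ≤ B)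
    (hB : ∀ n : ℕ, psum f n ≤ B * n) (A u : ℝ) : ‖phi f u - A‖ ≤ B + |A| := by
  rw [Real.norm_eq_abs]
  calc |phi f u - A| ≤ |phi f u| + |A| := abs_sub _ _
    _ ≤ B + |A| := by
      rw [abs_of_nonneg (phi_nonneg hf u)]
      gcongr
      exact phi_le hB0 hB u

open Complex in
theorem laplace_phi {f : ℕ → ℝ} (hf : ∀ n, 0 ≤ f n) {B : ℝ}
    (hB : ∀ n : ℕ, psum f n ≤ B * n) {s : ℂ} (hs : 1 < s.re) :
    LSeries (fun n => (f n : ℂ)) s =
      s * ∫ u in Ioi (0 : ℝ), (phi f u : ℂ) * cexp (-(s - 1) * u) := by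
  have hO : (fun n ↦ ∑ k ∈ Finset.Icc 1 n, f k) =O[atTop] fun n ↦ ((n : ℕ) : ℝ) ^ (1 : ℝ) := by
    refine Asymptotics.IsBigO.of_bound B (Eventually.of_forall fun n => ?_)
    have h1 := hB n
    unfold psum at h1
    rw [Nat.floor_natCast] at h1
    rw [Real.rpow_one, Real.norm_of_nonneg (Finset.sum_nonneg fun k _ => hf k),
      Real.norm_of_nonneg (Nat.cast_nonneg n)]
    exact h1
  rw [LSeries_eq_mul_integral_of_nonneg f (by norm_num) hs hO hf]
  congr 1
  have himg : Real.exp '' Ioi (0 : ℝ) = Ioi 1 := by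
    ext x
    simp only [mem_image, mem_Ioi]
    constructor
    · rintro ⟨u, hu, rfl⟩
      exact Real.one_lt_exp_iff.mpr hu
    · intro hx
      exact ⟨Real.log x, Real.log_pos hx, Real.exp_log (by linarith)⟩
  rw [← himg, integral_image_eq_integral_abs_deriv_smul measurableSet_Ioi
    (fun x _ => (Real.hasDerivAt_exp x).hasDerivWithinAt) Real.exp_injective.injOn]
  refine setIntegral_congr_fun measurableSet_Ioi fun u _ => ?_
  have h2 : ((Real.exp u : ℝ) : ℂ) ^ (-(s + 1)) = cexp (-(s + 1) * u) := by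
    rw [Complex.cpow_def_of_ne_zero (by exact_mod_cast (Real.exp_pos u).ne'),
      ← Complex.ofReal_log (Real.exp_pos u).le, Real.log_exp, mul_comm]
  show |Real.exp u| • ((∑ k ∈ Finset.Icc 1 ⌊Real.exp u⌋₊, (f k : ℂ)) *
      ((Real.exp u : ℝ) : ℂ) ^ (-(s + 1))) = (phi f u : ℂ) * cexp (-(s - 1) * u)
  rw [abs_of_pos (Real.exp_pos u), h2, real_smul]
  unfold phi psum
  push_cast
  have h3 : cexp (-(s - 1) * u) = cexp u * cexp u * cexp (-(s + 1) * u) := by
    rw [← Complex.exp_add, ← Complex.exp_add]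
    congr 1
    ring
  have h4 : cexp (-u) * cexp u = 1 := by rw [← Complex.exp_add]; simp
  rw [h3]
  linear_combination (-(cexp u * (∑ k ∈ Finset.Icc 1 ⌊Real.exp u⌋₊, (f k : ℂ)) *
    cexp (-(s + 1) * u))) * h4

/-- the Laplace transform of `φ - A` -/
theorem laplace_phi_sub {f : ℕ → ℝ} (hf : ∀ n, 0 ≤ f n) {B : ℝ} (hB0 : 0 ≤ B)
    (hB : ∀ n : ℕ, psum f n ≤ B * n) (A : ℝ) {s : ℂ} (hs : 1 < s.re) :
    ∫ u in Ioi (0 : ℝ), ((phi f u - A : ℝ) : ℂ) * Complex.exp (-(s - 1) * u) =
      LSeries (fun n => (f n : ℂ)) s / s - A / (s - 1) := by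
  have hs0 : s ≠ 0 := by
    intro h; rw [h] at hs; norm_num at hs
  have hs1 : s - 1 ≠ 0 := by
    intro h
    have : s = 1 := by linear_combination h
    rw [this] at hs; norm_num at hs
  have hre : 0 < (s - 1).re := by simp; linarith
  have hexp : IntegrableOn (fun u : ℝ => Complex.exp (-(s - 1) * u)) (Ioi 0) := by
    have := integrableOn_exp_mul_complex_Ioi (a := -(s - 1)) (by simpa using hs) 0
    exact this
  have hi1 : IntegrableOn (fun u : ℝ => (phi f u : ℂ) * Complex.exp (-(s - 1) * u)) (Ioi 0) := by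
    refine Integrable.bdd_mul (c := B) hexp ?_ ?_
    · exact (Complex.measurable_ofReal.comp (phi_measurable f)).aestronglyMeasurable
    · refine Eventually.of_forall fun u => ?_
      rw [Complex.norm_real, Real.norm_of_nonneg (phi_nonneg hf u)]
      exact phi_le hB0 hB u
  have h1 : ∀ u : ℝ, ((phi f u - A : ℝ) : ℂ) * Complex.exp (-(s - 1) * u) =
      (phi f u : ℂ) * Complex.exp (-(s - 1) * u) - A * Complex.exp (-(s - 1) * u) := by
    intro u; push_cast; ring
  simp_rw [h1]
  rw [integral_sub hi1 (hexp.const_mul _), laplace_phi hf hB hs, integral_const_mul,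
    integral_exp_mul_complex_Ioi (by simpa using hs)]
  rw [mul_div_cancel_left₀ _ hs0]
  congr 1
  rw [Complex.ofReal_zero, mul_zero, Complex.exp_zero, neg_div_neg_eq]
  ring

open Complex in
/-- the key identity, `ε > 0` -/
theorem key_identity {f : ℕ → ℝ} (hf : ∀ n, 0 ≤ f n) {B : ℝ} (hB0 : 0 ≤ B)
    (hB : ∀ n : ℕ, psum f n ≤ B * n) (A : ℝ) {L : ℝ} (hL : 0 < L) {ε : ℝ} (hε : 0 < ε) (y : ℝ) :
    ((∫ u in Ioi (0 : ℝ), (phi f u - A) * Real.exp (-(ε * u)) * fej L (u - y) : ℝ) : ℂ) =
      ∫ v, (tri L v : ℂ) * cexp (2 * π * I * y * v) *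
        (LSeries (fun n => (f n : ℂ)) (1 + ε + 2 * π * v * I) / (1 + ε + 2 * π * v * I) -
          A / ((1 + ε + 2 * π * v * I) - 1)) := by
  have hinner : ∀ v : ℝ, (LSeries (fun n => (f n : ℂ)) (1 + ε + 2 * π * v * I) /
      (1 + ε + 2 * π * v * I) - A / ((1 + ε + 2 * π * v * I) - 1)) =
      ∫ u in Ioi (0 : ℝ), ((phi f u - A : ℝ) : ℂ) *
        cexp (-((1 + ε + 2 * π * v * I) - 1) * u) := by
    intro v
    rw [laplace_phi_sub hf hB0 hB A]
    simp [hε]
  simp_rw [hinner]
  -- left side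
  have hleft : ((∫ u in Ioi (0 : ℝ), (phi f u - A) * Real.exp (-(ε * u)) * fej L (u - y) : ℝ) : ℂ) =
      ∫ u in Ioi (0 : ℝ), ∫ v, ((tri L v : ℂ) * cexp (2 * π * I * y * v)) *
        (((phi f u - A : ℝ) : ℂ) * cexp (-((1 + ε + 2 * π * v * I) - 1) * u)) := by
    rw [← integral_complex_ofReal]
    refine setIntegral_congr_fun measurableSet_Ioi fun u _ => ?_
    show (((phi f u - A) * Real.exp (-(ε * u)) * fej L (u - y) : ℝ) : ℂ) = _
    have h1 : fej L (u - y) = fej L (y - u) := by rw [← fej_neg, neg_sub]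
    rw [h1, ofReal_mul, ← fourier_tri hL, ← integral_const_mul]
    refine integral_congr_ae (Eventually.of_forall fun v => ?_)
    show _ = _
    have h2 : cexp (-((1 + ε + 2 * π * v * I) - 1) * u) =
        cexp (-(ε * u)) * cexp (-(2 * π * I * v * u)) := by
      rw [← Complex.exp_add]; congr 1; ring
    have h3 : cexp (2 * π * I * ((y - u : ℝ) : ℂ) * v) =
        cexp (2 * π * I * y * v) * cexp (-(2 * π * I * v * u)) := by
      rw [← Complex.exp_add]; congr 1; push_cast; ring
    simp only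
    rw [h2, h3]
    push_cast
    ring
  rw [hleft]
  rw [integral_integral_swap]
  · refine integral_congr_ae (Eventually.of_forall fun v => ?_)
    simp only
    rw [integral_const_mul]
  · -- integrability on the product
    have hdom : Integrable (fun z : ℝ × ℝ => ((B + |A|) * Real.exp (-(ε * z.1))) * tri L z.2)
        ((volume.restrict (Ioi 0)).prod volume) := by
      refine Integrable.mul_prod (f := fun u => (B + |A|) * Real.exp (-(ε * u))) ?_
        (tri_integrable hL)
      refine Integrable.const_mul ?_ _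
      have := integrableOn_exp_mul_Ioi (a := -ε) (by linarith) 0
      simpa [IntegrableOn] using this
    refine hdom.mono' ?_ ?_
    · have m1 : Measurable (fun z : ℝ × ℝ => ((phi f z.1 - A : ℝ) : ℂ)) :=
        Complex.measurable_ofReal.comp (((phi_measurable f).comp measurable_fst).sub_const A)
      have m2 : Continuous (fun z : ℝ × ℝ => ((tri L z.2 : ℂ) * cexp (2 * π * I * y * z.2))) := by
        have := tri_continuous L
        fun_prop
      have m3 : Continuous (fun z : ℝ × ℝ => cexp (-((1 + ε + 2 * π * z.2 * I) - 1) * z.1)) := by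
        fun_prop
      exact (m2.measurable.mul (m1.mul m3.measurable)).aestronglyMeasurable
    · refine Eventually.of_forall fun z => ?_
      simp only [Function.uncurry]
      rw [norm_mul, norm_mul, norm_mul]
      have n1 : ‖(tri L z.2 : ℂ)‖ = tri L z.2 := by
        rw [Complex.norm_real, Real.norm_of_nonneg (tri_nonneg _ _)]
      have n2 : ‖cexp (2 * π * I * y * z.2)‖ = 1 := by
        rw [show (2 * π * I * y * z.2 : ℂ) = ((2 * π * y * z.2 : ℝ) : ℂ) * I by push_cast; ring,
          Complex.norm_exp_ofReal_mul_I]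
      have n3 : ‖cexp (-((1 + ε + 2 * π * z.2 * I) - 1) * z.1)‖ = Real.exp (-(ε * z.1)) := by
        rw [Complex.norm_exp]
        congr 1
        simp
      have n4 : ‖((phi f z.1 - A : ℝ) : ℂ)‖ ≤ B + |A| := by
        rw [Complex.norm_real]
        exact phi_norm_le hf hB0 hB A _
      rw [n1, n2, n3, mul_one]
      calc tri L z.2 * (‖((phi f z.1 - A : ℝ) : ℂ)‖ * Real.exp (-(ε * z.1))) ≤
          tri L z.2 * ((B + |A|) * Real.exp (-(ε * z.1))) := by
            have := tri_nonneg L z.2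
            have := (Real.exp_pos (-(ε * z.1))).le
            gcongr
        _ = (B + |A|) * Real.exp (-(ε * z.1)) * tri L z.2 := by ring

/-- `(G s - A)/s` -/
noncomputable def Gt (G : ℂ → ℂ) (A : ℝ) (s : ℂ) : ℂ := (G s - A) / s

theorem Gt_eq {f : ℕ → ℝ} {G : ℂ → ℂ} {A : ℝ}
    (hG : ∀ s : ℂ, 1 < s.re → G s = LSeries (fun n => (f n : ℂ)) s - A / (s - 1)) {s : ℂ}
    (hs : 1 < s.re) : LSeries (fun n => (f n : ℂ)) s / s - A / (s - 1) = Gt G A s := by
  have hs0 : s ≠ 0 := by
    intro h; rw [h] at hs; norm_num at hs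
  have hs1 : s - 1 ≠ 0 := by
    intro h
    have : s = 1 := by linear_combination h
    rw [this] at hs; norm_num at hs
  unfold Gt
  rw [hG s hs]
  field_simp
  ring

theorem Gt_cont {G : ℂ → ℂ} (A : ℝ) (hGc : ContinuousOn G {s : ℂ | 1 ≤ s.re}) :
    ContinuousOn (Gt G A) {s : ℂ | 1 ≤ s.re} := by
  unfold Gt
  refine (hGc.sub continuousOn_const).div continuousOn_id ?_
  intro s hs h
  have h' : s = 0 := h
  rw [h'] at hs
  norm_num at hs

open Complex in
theorem re_line (ε v : ℝ) : (1 + ε + 2 * π * v * I : ℂ).re = 1 + ε := by simp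

open Complex in
theorem im_line (ε v : ℝ) : (1 + ε + 2 * π * v * I : ℂ).im = 2 * π * v := by simp

open Complex in
theorem limit_identity {f : ℕ → ℝ} (hf : ∀ n, 0 ≤ f n) {B : ℝ} (hB0 : 0 ≤ B)
    (hB : ∀ n : ℕ, psum f n ≤ B * n) {A : ℝ} {G : ℂ → ℂ}
    (hGc : ContinuousOn G {s : ℂ | 1 ≤ s.re})
    (hG : ∀ s : ℂ, 1 < s.re → G s = LSeries (fun n => (f n : ℂ)) s - A / (s - 1))
    {L : ℝ} (hL : 0 < L) (y : ℝ) :
    ((∫ u in Ioi (0 : ℝ), (phi f u - A) * fej L (u - y) : ℝ) : ℂ) =
      ∫ v, (tri L v : ℂ) * cexp (2 * π * I * y * v) * Gt G A (1 + (0 : ℝ) + 2 * π * v * I) := by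
  -- left limit
  have hleft : Tendsto (fun ε : ℝ => ((∫ u in Ioi (0 : ℝ), (phi f u - A) * Real.exp (-(ε * u)) *
      fej L (u - y) : ℝ) : ℂ)) (𝓝[>] 0)
      (𝓝 ((∫ u in Ioi (0 : ℝ), (phi f u - A) * fej L (u - y) : ℝ) : ℂ)) := by
    refine (Complex.continuous_ofReal.tendsto _).comp ?_
    refine tendsto_integral_filter_of_dominated_convergence
      (fun u => (B + |A|) * fej L (u - y)) ?_ ?_ ?_ ?_
    · refine Eventually.of_forall fun ε => ?_
      have m1 := (phi_measurable f).sub_const A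
      have m2 : Continuous (fun u : ℝ => Real.exp (-(ε * u))) := by fun_prop
      have m3 : Continuous (fun u : ℝ => fej L (u - y)) :=
        (fej_continuous L).comp (by fun_prop)
      exact ((m1.mul m2.measurable).mul m3.measurable).aestronglyMeasurable
    · filter_upwards [self_mem_nhdsWithin] with ε hε
      rw [ae_restrict_iff' measurableSet_Ioi]
      refine Eventually.of_forall fun u hu => ?_
      rw [norm_mul, norm_mul, Real.norm_of_nonneg (fej_nonneg hL _),
        Real.norm_of_nonneg (Real.exp_pos _).le]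
      have h1 := phi_norm_le hf hB0 hB A u
      have h2 : Real.exp (-(ε * u)) ≤ 1 := by
        rw [Real.exp_le_one_iff]
        have : 0 < ε * u := mul_pos hε hu
        linarith
      have h3 := fej_nonneg hL (u - y)
      have h4 : 0 ≤ B + |A| := by positivity
      calc ‖phi f u - A‖ * Real.exp (-(ε * u)) * fej L (u - y) ≤
          (B + |A|) * 1 * fej L (u - y) := by gcongr
        _ = _ := by ring
    · exact ((fej_integrable hL).comp_sub_right y).integrableOn.const_mul _
    · refine Eventually.of_forall fun u => ?_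
      have : Tendsto (fun ε : ℝ => (phi f u - A) * Real.exp (-(ε * u)) * fej L (u - y)) (𝓝 0)
          (𝓝 ((phi f u - A) * Real.exp (-(0 * u)) * fej L (u - y))) := by
        apply Continuous.tendsto
        fun_prop
      simp only [zero_mul, neg_zero, Real.exp_zero, mul_one] at this
      exact this.mono_left nhdsWithin_le_nhds
  have hright : Tendsto (fun ε : ℝ => ∫ v, (tri L v : ℂ) * cexp (2 * π * I * y * v) *
      Gt G A (1 + ε + 2 * π * v * I)) (𝓝[>] 0)
      (𝓝 (∫ v, (tri L v : ℂ) * cexp (2 * π * I * y * v) *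
        Gt G A (1 + (0 : ℝ) + 2 * π * v * I))) := by
    have hcpt : IsCompact ((Icc (1 : ℝ) 2) ×ℂ (Icc (-(2 * π * L)) (2 * π * L))) :=
      isCompact_Icc.reProdIm isCompact_Icc
    have hsub : ((Icc (1 : ℝ) 2) ×ℂ (Icc (-(2 * π * L)) (2 * π * L))) ⊆ {s : ℂ | 1 ≤ s.re} := by
      intro s hs
      rw [Complex.mem_reProdIm] at hs
      exact hs.1.1
    obtain ⟨C, hC⟩ := hcpt.exists_bound_of_continuousOn ((Gt_cont A hGc).mono hsub)
    have hcontline : ∀ ε : ℝ, 0 ≤ ε → Continuous (fun v : ℝ => Gt G A (1 + ε + 2 * π * v * I)) := by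
      intro ε hε
      refine (Gt_cont A hGc).comp_continuous (by fun_prop) ?_
      intro v
      show 1 ≤ (1 + ε + 2 * π * v * I : ℂ).re
      rw [re_line]; linarith
    refine tendsto_integral_filter_of_dominated_convergence (fun v => tri L v * C) ?_ ?_ ?_ ?_
    · filter_upwards [self_mem_nhdsWithin] with ε hε
      have m1 : Continuous (fun v : ℝ => ((tri L v : ℂ) * cexp (2 * π * I * y * v))) := by
        have := tri_continuous L
        fun_prop
      exact (m1.mul (hcontline ε (le_of_lt hε))).aestronglyMeasurable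
    · have hlt : ∀ᶠ ε : ℝ in 𝓝[>] 0, ε < 1 :=
        mem_nhdsWithin_of_mem_nhds (Iio_mem_nhds (by norm_num))
      filter_upwards [self_mem_nhdsWithin, hlt] with ε hε hε1
      refine Eventually.of_forall fun v => ?_
      rw [norm_mul, norm_mul]
      have n1 : ‖(tri L v : ℂ)‖ = tri L v := by
        rw [Complex.norm_real, Real.norm_of_nonneg (tri_nonneg _ _)]
      have n2 : ‖cexp (2 * π * I * y * v)‖ = 1 := by
        rw [show (2 * π * I * y * v : ℂ) = ((2 * π * y * v : ℝ) : ℂ) * I by push_cast; ring,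
          Complex.norm_exp_ofReal_mul_I]
      rw [n1, n2, mul_one]
      by_cases hv : L ≤ |v|
      · rw [tri_eq_zero hL hv]; simp
      · rw [not_le, abs_lt] at hv
        refine mul_le_mul_of_nonneg_left ?_ (tri_nonneg _ _)
        apply hC
        rw [Complex.mem_reProdIm, re_line, im_line]
        have hpi := pi_pos
        have hε' : (0 : ℝ) < ε := hε
        refine ⟨⟨by linarith, by linarith⟩, ⟨by nlinarith, by nlinarith⟩⟩
    · exact (tri_integrable hL).mul_const C
    · refine Eventually.of_forall fun v => ?_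
      refine Tendsto.mul tendsto_const_nhds ?_
      have h0 : (1 + ((0 : ℝ) : ℂ) + 2 * π * v * I) ∈ {s : ℂ | 1 ≤ s.re} := by
        show 1 ≤ (1 + ((0 : ℝ) : ℂ) + 2 * π * v * I : ℂ).re
        rw [re_line]; linarith
      have hc := (Gt_cont A hGc) _ h0
      refine hc.tendsto.comp ?_
      rw [tendsto_nhdsWithin_iff]
      constructor
      · have : Tendsto (fun ε : ℝ => (1 + (ε : ℂ) + 2 * π * v * I)) (𝓝 0)
            (𝓝 (1 + ((0 : ℝ) : ℂ) + 2 * π * v * I)) := by
          apply Continuous.tendsto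
          fun_prop
        exact this.mono_left nhdsWithin_le_nhds
      · filter_upwards [self_mem_nhdsWithin] with ε hε
        show 1 ≤ (1 + ε + 2 * π * v * I : ℂ).re
        have hε' : (0 : ℝ) < ε := hε
        rw [re_line]; linarith
  refine tendsto_nhds_unique hleft (hright.congr' ?_)
  filter_upwards [self_mem_nhdsWithin] with ε hε
  have hε' : (0 : ℝ) < ε := hε
  rw [key_identity hf hB0 hB A hL hε' y]
  refine integral_congr_ae (Eventually.of_forall fun v => ?_)
  simp only
  rw [Gt_eq hG]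
  rw [re_line]; linarith

open Complex in
theorem tendsto_D {f : ℕ → ℝ} (hf : ∀ n, 0 ≤ f n) {B : ℝ} (hB0 : 0 ≤ B)
    (hB : ∀ n : ℕ, psum f n ≤ B * n) {A : ℝ} {G : ℂ → ℂ}
    (hGc : ContinuousOn G {s : ℂ | 1 ≤ s.re})
    (hG : ∀ s : ℂ, 1 < s.re → G s = LSeries (fun n => (f n : ℂ)) s - A / (s - 1))
    {L : ℝ} (hL : 0 < L) :
    Tendsto (fun y : ℝ => ∫ u in Ioi (0 : ℝ), (phi f u - A) * fej L (u - y)) atTop (𝓝 0) := by
  have h1 := Real.tendsto_integral_exp_smul_cocompact
    (fun v : ℝ => (tri L v : ℂ) * Gt G A (1 + (0 : ℝ) + 2 * π * v * I))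
  have h2 : Tendsto (fun y : ℝ => -y) atTop (cocompact ℝ) :=
    (tendsto_neg_atTop_atBot).mono_right atBot_le_cocompact
  have h3 := h1.comp h2
  have h4 : Tendsto (fun y : ℝ => ((∫ u in Ioi (0 : ℝ), (phi f u - A) * fej L (u - y) : ℝ) : ℂ))
      atTop (𝓝 0) := by
    refine h3.congr fun y => ?_
    rw [limit_identity hf hB0 hB hGc hG hL y]
    simp only [Function.comp]
    refine integral_congr_ae (Eventually.of_forall fun v => ?_)
    simp only
    rw [Circle.smul_def, Real.fourierChar_apply, smul_eq_mul]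
    have : cexp (((2 * π * -(v * -y) : ℝ) : ℂ) * I) = cexp (2 * π * I * y * v) := by
      congr 1; push_cast; ring
    rw [this]
    ring
  have h5 := (Complex.continuous_re.tendsto _).comp h4
  simpa [Function.comp_def] using h5

theorem kappa_ge {L η : ℝ} (hL : 0 < L) (hη : 0 < η) :
    1 - 2 / (L * η) ≤ ∫ w in Icc (-η) η, fej L w := by
  have hint := fej_integrable hL
  have h1 := integral_add_compl (s := Icc (-η) η) measurableSet_Icc hint
  rw [integral_fej hL] at h1
  have h2 : (Icc (-η) η)ᶜ = Iio (-η) ∪ Ioi η := by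
    ext x
    simp only [mem_compl_iff, mem_Icc, mem_union, mem_Iio, mem_Ioi, not_and_or, not_le]
  have hdisj : Disjoint (Iio (-η)) (Ioi η) := by
    rw [Set.disjoint_left]
    intro x hx hx2
    simp only [mem_Iio, mem_Ioi] at hx hx2
    linarith
  have h3 : ∫ w in Ioi η, fej L w ≤ 1 / (L * η) := by
    have hi : IntegrableOn (fun w : ℝ => 1 / L * w ^ (-2 : ℝ)) (Ioi η) :=
      (integrableOn_Ioi_rpow_of_lt (by norm_num) hη).const_mul _
    calc ∫ w in Ioi η, fej L w ≤ ∫ w in Ioi η, 1 / L * w ^ (-2 : ℝ) := by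
          refine setIntegral_mono_on hint.integrableOn hi measurableSet_Ioi fun w hw => ?_
          have hw0 : 0 < w := hη.trans hw
          refine (fej_le_inv hL hw0.ne').trans (le_of_eq ?_)
          rw [Real.rpow_neg hw0.le, Real.rpow_two]
          field_simp
      _ = 1 / (L * η) := by
          rw [integral_const_mul, integral_Ioi_rpow_of_lt (by norm_num) hη]
          have : (-2 : ℝ) + 1 = -1 := by norm_num
          rw [this, Real.rpow_neg_one]
          field_simp
  have h4 : ∫ w in Iio (-η), fej L w = ∫ w in Ioi η, fej L w := by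
    have := integral_comp_neg_Iic (-η) (fej L)
    rw [neg_neg] at this
    rw [← this, ← integral_Iic_eq_integral_Iio]
    refine setIntegral_congr_fun measurableSet_Iic fun w _ => ?_
    exact (fej_neg L w).symm
  rw [h2, setIntegral_union hdisj measurableSet_Ioi hint.integrableOn hint.integrableOn, h4] at h1
  have h5 : 2 / (L * η) = 1 / (L * η) + 1 / (L * η) := by ring
  rw [h5]
  linarith

theorem tauber_bounds {f : ℕ → ℝ} (hf : ∀ n, 0 ≤ f n) {B : ℝ} (hB0 : 0 ≤ B)
    (hB : ∀ n : ℕ, psum f n ≤ B * n) {A : ℝ} (hA : 0 ≤ A) {L η y : ℝ} (hL : 0 < L) (hη : 0 < η)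
    (hy : η < y) {D κ : ℝ}
    (hD : D = ∫ u in Ioi (0 : ℝ), (phi f u - A) * fej L (u - y))
    (hκ : κ = ∫ w in Icc (-η) η, fej L w) :
    phi f (y - η) * Real.exp (-(2 * η)) * κ - A ≤ D ∧
      D ≤ κ * (phi f (y + η) * Real.exp (2 * η) - A - B) + B := by
  have hshift : Integrable (fun u => fej L (u - y)) := (fej_integrable hL).comp_sub_right y
  have hI : IntegrableOn (fun u => (phi f u - A) * fej L (u - y)) (Ioi 0) := by
    refine Integrable.bdd_mul (c := B + |A|) hshift.integrableOn ?_ ?_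
    · exact ((phi_measurable f).sub_const A).aestronglyMeasurable
    · exact Eventually.of_forall fun u => phi_norm_le hf hB0 hB A u
  have hsub : Icc (y - η) (y + η) ⊆ Ioi 0 := by
    intro u hu
    have := hu.1
    show 0 < u
    linarith
  have hκ' : ∫ u in Icc (y - η) (y + η), fej L (u - y) = κ := by
    rw [hκ, integral_Icc_eq_integral_Ioc, integral_Icc_eq_integral_Ioc,
      ← intervalIntegral.integral_of_le (by linarith), ← intervalIntegral.integral_of_le
        (by linarith), intervalIntegral.integral_comp_sub_right (fun x => fej L x)]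
    congr 1 <;> ring
  have hind : ∀ c : ℝ, ∫ u in Ioi (0 : ℝ), (Icc (y - η) (y + η)).indicator
      (fun u => c * fej L (u - y)) u = c * κ := by
    intro c
    rw [setIntegral_indicator measurableSet_Icc, inter_eq_right.mpr hsub, integral_const_mul, hκ']
  have hindi : ∀ c : ℝ, IntegrableOn ((Icc (y - η) (y + η)).indicator
      (fun u => c * fej L (u - y))) (Ioi 0) := fun c =>
    ((hshift.const_mul c).indicator measurableSet_Icc).integrableOn
  have htot : ∫ u in Ioi (0 : ℝ), fej L (u - y) ≤ 1 := by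
    calc ∫ u in Ioi (0 : ℝ), fej L (u - y) ≤ ∫ u, fej L (u - y) :=
          setIntegral_le_integral hshift (Eventually.of_forall fun u => fej_nonneg hL _)
      _ = 1 := by rw [integral_sub_right_eq_self (fej L) y, integral_fej hL]
  constructor
  · have h1 : ∫ u in Ioi (0 : ℝ), ((Icc (y - η) (y + η)).indicator
        (fun u => (phi f (y - η) * Real.exp (-(2 * η))) * fej L (u - y)) u -
          A * fej L (u - y)) ≤ D := by
      rw [hD]
      refine setIntegral_mono_on ((hindi _).sub (hshift.integrableOn.const_mul _)) hI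
        measurableSet_Ioi fun u hu => ?_
      have hk := fej_nonneg hL (u - y)
      by_cases hmem : u ∈ Icc (y - η) (y + η)
      · rw [indicator_of_mem hmem]
        have h2 := phi_taub hf hmem.1
        have h3 : Real.exp (-(2 * η)) ≤ Real.exp (-(u - (y - η))) := by
          rw [Real.exp_le_exp]; linarith [hmem.2]
        have h4 : phi f (y - η) * Real.exp (-(2 * η)) ≤ phi f u :=
          (mul_le_mul_of_nonneg_left h3 (phi_nonneg hf _)).trans h2
        nlinarith
      · rw [indicator_of_notMem hmem]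
        have := phi_nonneg hf u
        nlinarith
    rw [integral_sub (hindi _) (hshift.integrableOn.const_mul _), hind, integral_const_mul] at h1
    nlinarith
  · have h1 : D ≤ ∫ u in Ioi (0 : ℝ), ((Icc (y - η) (y + η)).indicator
        (fun u => (phi f (y + η) * Real.exp (2 * η) - A - B) * fej L (u - y)) u +
          B * fej L (u - y)) := by
      rw [hD]
      refine setIntegral_mono_on hI ((hindi _).add (hshift.integrableOn.const_mul _))
        measurableSet_Ioi fun u hu => ?_
      have hk := fej_nonneg hL (u - y)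
      by_cases hmem : u ∈ Icc (y - η) (y + η)
      · rw [indicator_of_mem hmem]
        have h2 := phi_taub hf hmem.2
        have h4 : phi f u ≤ phi f (y + η) * Real.exp (2 * η) := by
          have h5 : phi f u = phi f u * Real.exp (-(y + η - u)) * Real.exp (y + η - u) := by
            rw [mul_assoc, ← Real.exp_add]; simp
          rw [h5]
          have h6 : Real.exp (y + η - u) ≤ Real.exp (2 * η) := by
            rw [Real.exp_le_exp]; linarith [hmem.1]
          exact mul_le_mul h2 h6 (Real.exp_pos _).le (phi_nonneg hf _)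
        nlinarith
      · rw [indicator_of_notMem hmem]
        have := phi_le hB0 hB u
        nlinarith
    rw [integral_add (hindi _) (hshift.integrableOn.const_mul _), hind, integral_const_mul] at h1
    nlinarith

/-- **Wiener–Ikehara** (with an a priori bound): `φ(u) → A`. -/
theorem tendsto_phi {f : ℕ → ℝ} (hf : ∀ n, 0 ≤ f n) {B : ℝ} (hB0 : 0 ≤ B)
    (hB : ∀ n : ℕ, psum f n ≤ B * n) {A : ℝ} (hA : 0 ≤ A) {G : ℂ → ℂ}
    (hGc : ContinuousOn G {s : ℂ | 1 ≤ s.re})
    (hG : ∀ s : ℂ, 1 < s.re → G s = LSeries (fun n => (f n : ℂ)) s - A / (s - 1)) :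
    Tendsto (phi f) atTop (𝓝 A) := by
  rw [Metric.tendsto_atTop]
  intro ε hε
  -- choose η
  have c1 : Tendsto (fun η : ℝ => (A + η) * Real.exp (2 * η) / (1 - 2 * η)) (𝓝[>] 0) (𝓝 A) := by
    have : ContinuousAt (fun η : ℝ => (A + η) * Real.exp (2 * η) / (1 - 2 * η)) 0 := by
      refine ContinuousAt.div (by fun_prop) (by fun_prop) (by norm_num)
    have h := this.tendsto
    simp only [add_zero, mul_zero, Real.exp_zero, mul_one, sub_zero, div_one] at h
    exact h.mono_left nhdsWithin_le_nhds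
  have c2 : Tendsto (fun η : ℝ => Real.exp (-(2 * η)) * (-η + A * (1 - 2 * η) - B * (2 * η)))
      (𝓝[>] 0) (𝓝 A) := by
    have : ContinuousAt (fun η : ℝ => Real.exp (-(2 * η)) *
        (-η + A * (1 - 2 * η) - B * (2 * η))) 0 := by fun_prop
    have h := this.tendsto
    simp only [mul_zero, neg_zero, Real.exp_zero, one_mul, sub_zero, mul_one, zero_add] at h
    exact h.mono_left nhdsWithin_le_nhds
  have e1 := (tendsto_order.1 c1).2 (A + ε) (by linarith)
  have e2 := (tendsto_order.1 c2).1 (A - ε) (by linarith)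
  have e3 : ∀ᶠ η : ℝ in 𝓝[>] 0, η < 1 / 4 :=
    mem_nhdsWithin_of_mem_nhds (Iio_mem_nhds (by norm_num))
  obtain ⟨η, h1, h2, h3, hη⟩ := (e1.and (e2.and (e3.and self_mem_nhdsWithin))).exists
  have hη0 : 0 < η := hη
  set L : ℝ := 1 / η ^ 2 with hLdef
  have hL : 0 < L := by positivity
  set κ : ℝ := ∫ w in Icc (-η) η, fej L w with hκdef
  have hκ1 : 1 - 2 * η ≤ κ := by
    have := kappa_ge hL hη0
    have h4 : 2 / (L * η) = 2 * η := by rw [hLdef]; field_simp
    rw [h4] at this
    exact this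
  have hκ2 : κ ≤ 1 := by
    calc κ ≤ ∫ w, fej L w := setIntegral_le_integral (fej_integrable hL)
          (Eventually.of_forall fun u => fej_nonneg hL _)
      _ = 1 := integral_fej hL
  have hD := tendsto_D hf hB0 hB hGc hG hL
  rw [Metric.tendsto_atTop] at hD
  obtain ⟨Y, hY⟩ := hD η hη0
  refine ⟨max Y 1 + 2, fun z hz => ?_⟩
  have hz1 : Y + 2 ≤ z := (add_le_add_left (le_max_left _ _) _).trans hz
  have hz2 : 1 + 2 ≤ z := (add_le_add_left (le_max_right _ _) _).trans hz
  rw [Real.dist_eq, abs_lt]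
  have hκ0 : 0 < κ := by linarith
  constructor
  · -- lower bound, y = z - η
    obtain ⟨-, hb⟩ := tauber_bounds hf hB0 hB hA hL hη0 (y := z - η) (by linarith) rfl hκdef
    have hDy := hY (z - η) (by linarith)
    rw [Real.dist_eq, sub_zero, abs_lt] at hDy
    have hz' : z - η + η = z := by ring
    rw [hz'] at hb
    have hexp : Real.exp (-(2 * η)) * Real.exp (2 * η) = 1 := by rw [← Real.exp_add]; simp
    have hp := phi_nonneg hf z
    have he := Real.exp_pos (2 * η)
    have he' := Real.exp_pos (-(2 * η))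
    -- -η < D ≤ κ φ e^{2η} - κ A - κ B + B
    have h5 : -η + A * (1 - 2 * η) - B * (2 * η) ≤ phi f z * Real.exp (2 * η) := by
      have h6 : κ * (phi f z * Real.exp (2 * η)) ≤ phi f z * Real.exp (2 * η) :=
        mul_le_of_le_one_left (by positivity) hκ2
      have h7 : A * (1 - 2 * η) ≤ A * κ := mul_le_mul_of_nonneg_left hκ1 hA
      have h8 : B * (1 - 2 * η) ≤ B * κ := mul_le_mul_of_nonneg_left hκ1 hB0
      nlinarith
    have h9 : Real.exp (-(2 * η)) * (-η + A * (1 - 2 * η) - B * (2 * η)) ≤ phi f z := by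
      calc Real.exp (-(2 * η)) * (-η + A * (1 - 2 * η) - B * (2 * η)) ≤
          Real.exp (-(2 * η)) * (phi f z * Real.exp (2 * η)) := by gcongr
        _ = phi f z := by linear_combination (phi f z) * hexp
    linarith
  · obtain ⟨hb, -⟩ := tauber_bounds hf hB0 hB hA hL hη0 (y := z + η) (by linarith) rfl hκdef
    have hDy := hY (z + η) (by linarith)
    rw [Real.dist_eq, sub_zero, abs_lt] at hDy
    have hz' : z + η - η = z := by ring
    rw [hz'] at hb
    have hexp : Real.exp (-(2 * η)) * Real.exp (2 * η) = 1 := by rw [← Real.exp_add]; simp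
    have hp := phi_nonneg hf z
    have he := Real.exp_pos (2 * η)
    have he' := Real.exp_pos (-(2 * η))
    have h5 : phi f z * Real.exp (-(2 * η)) * κ ≤ A + η := by linarith
    have h6 : phi f z ≤ (A + η) * Real.exp (2 * η) / (1 - 2 * η) := by
      rw [le_div_iff₀ (by linarith)]
      calc phi f z * (1 - 2 * η) ≤ phi f z * κ := by gcongr
        _ = (phi f z * Real.exp (-(2 * η)) * κ) * Real.exp (2 * η) := by
            linear_combination (-(phi f z * κ)) * hexp
        _ ≤ (A + η) * Real.exp (2 * η) := by gcongr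
    linarith

end Pool.Agent.PNT
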