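import Mathlib
import Pool.Agent.PNT.WI

/-!
The prime number theorem, also in arithmetic progressions (no error term):
`psi_ap`, `theta_ap`, `pi_ap`, and for all primes `psi_tendsto`, `theta_tendsto`, `pi_tendsto`.
-/

open MeasureTheory Filter Topology Real Set
open ArithmeticFunction.vonMangoldt

namespace Pool.Agent.PNT

theorem psum_residue_le {q : ℕ} (a : ZMod q) (n : ℕ) :
    psum (residueClass a) n ≤ (Real.log 4 + 4) * n := by
  refine le_trans ?_ (Chebyshev.psi_le_const_mul_self (Nat.cast_nonneg n))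
  unfold psum
  rw [Chebyshev.psi_eq_sum_Icc, Nat.floor_natCast]
  refine (Finset.sum_le_sum fun k _ => residueClass_le a k).trans ?_
  refine Finset.sum_le_sum_of_subset_of_nonneg (Finset.Icc_subset_Icc (by norm_num) le_rfl)
    fun k _ _ => ArithmeticFunction.vonMangoldt_nonneg

/-- The prime number theorem for arithmetic progressions, `ψ` form. -/
theorem psi_ap {q : ℕ} [NeZero q] {a : ZMod q} (ha : IsUnit a) :
    Tendsto (fun x : ℝ => psum (residueClass a) x / x) atTop (𝓝 (q.totient : ℝ)⁻¹) := by
  have h := tendsto_phi (f := residueClass a) (residueClass_nonneg a) (B := Real.log 4 + 4)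
    (by have := Real.log_nonneg (show (1 : ℝ) ≤ 4 by norm_num); linarith)
    (fun n => psum_residue_le a n) (A := (q.totient : ℝ)⁻¹) (by positivity)
    (G := LFunctionResidueClassAux a) (continuousOn_LFunctionResidueClassAux a) (by
      intro s hs
      have := eqOn_LFunctionResidueClassAux ha (show s ∈ {s : ℂ | 1 < s.re} from hs)
      simp only at this
      rw [this]
      push_cast
      rfl)
  have h2 := h.comp Real.tendsto_log_atTop
  refine h2.congr' ?_
  filter_upwards [eventually_gt_atTop 0] with x hx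
  simp only [Function.comp]
  unfold phi
  rw [Real.exp_log hx, Real.exp_neg, Real.exp_log hx]
  rfl

open Classical in
/-- the primes `p ≤ x` with `p ≡ a mod q` -/
noncomputable def primesAP {q : ℕ} (a : ZMod q) (x : ℝ) : Finset ℕ :=
  (Finset.Ioc 0 ⌊x⌋₊).filter (fun p : ℕ => p.Prime ∧ (p : ZMod q) = a)

/-- `∑_{p ≤ x, p ≡ a mod q} log p` -/
noncomputable def thetaAP {q : ℕ} (a : ZMod q) (x : ℝ) : ℝ := ∑ p ∈ primesAP a x, Real.log p

theorem psi_sub_theta_ap_nonneg {q : ℕ} (a : ZMod q) (x : ℝ) :
    0 ≤ psum (residueClass a) x - thetaAP a x := by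
  classical
  unfold psum thetaAP primesAP
  rw [sub_nonneg, Finset.sum_filter]
  have : Finset.Icc 1 ⌊x⌋₊ = Finset.Ioc 0 ⌊x⌋₊ := rfl
  rw [this]
  refine Finset.sum_le_sum fun k _ => ?_
  split_ifs with h
  · rw [residueClass, Set.indicator_of_mem (show k ∈ {n : ℕ | (n : ZMod q) = a} from h.2),
      ArithmeticFunction.vonMangoldt_apply_prime h.1]
  · exact residueClass_nonneg a k

theorem psi_sub_theta_ap_le {q : ℕ} (a : ZMod q) {x : ℝ} (hx : 1 ≤ x) :
    psum (residueClass a) x - thetaAP a x ≤ 2 * √x * Real.log x := by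
  classical
  refine le_trans ?_ (Chebyshev.psi_sub_theta_le hx)
  rw [Chebyshev.psi_sub_theta_eq_sum_not_prime]
  unfold psum thetaAP primesAP
  have : Finset.Icc 1 ⌊x⌋₊ = Finset.Ioc 0 ⌊x⌋₊ := rfl
  rw [this, Finset.sum_filter, Finset.sum_filter, ← Finset.sum_sub_distrib]
  refine Finset.sum_le_sum fun k _ => ?_
  by_cases hp : k.Prime
  · by_cases hk : (k : ZMod q) = a
    · rw [residueClass, Set.indicator_of_mem (show k ∈ {n : ℕ | (n : ZMod q) = a} from hk),
        ArithmeticFunction.vonMangoldt_apply_prime hp]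
      simp [hp, hk]
    · rw [residueClass, Set.indicator_of_notMem (show k ∉ {n : ℕ | (n : ZMod q) = a} from hk)]
      simp [hk, hp]
  · simp only [hp, false_and, if_false, sub_zero, not_false_eq_true, if_true]
    exact residueClass_le a k

theorem tendsto_sqrt_log : Tendsto (fun x : ℝ => 2 * √x * Real.log x / x) atTop (𝓝 0) := by
  have h := (isLittleO_log_rpow_atTop (show (0 : ℝ) < 1 / 2 by norm_num)).tendsto_div_nhds_zero
  have h2 := h.const_mul 2
  rw [mul_zero] at h2
  refine h2.congr' ?_
  filter_upwards [eventually_gt_atTop 0] with x hx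
  rw [← Real.sqrt_eq_rpow]
  have h3 : √x * √x = x := Real.mul_self_sqrt hx.le
  have h4 : 0 < √x := Real.sqrt_pos.mpr hx
  rw [eq_div_iff hx.ne', mul_div_assoc', div_mul_eq_mul_div, div_eq_iff h4.ne']
  linear_combination (-(2 * Real.log x)) * h3

/-- The prime number theorem for arithmetic progressions, `θ` form. -/
theorem theta_ap {q : ℕ} [NeZero q] {a : ZMod q} (ha : IsUnit a) :
    Tendsto (fun x : ℝ => thetaAP a x / x) atTop (𝓝 (q.totient : ℝ)⁻¹) := by
  have h1 := psi_ap ha
  have h2 : Tendsto (fun x : ℝ => (psum (residueClass a) x - thetaAP a x) / x) atTop (𝓝 0) := by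
    refine squeeze_zero' ?_ ?_ tendsto_sqrt_log
    · filter_upwards [eventually_gt_atTop 0] with x hx
      exact div_nonneg (psi_sub_theta_ap_nonneg a x) hx.le
    · filter_upwards [eventually_ge_atTop 1] with x hx
      have := psi_sub_theta_ap_le a hx
      gcongr
  have h3 := h1.sub h2
  rw [sub_zero] at h3
  refine h3.congr fun x => ?_
  ring

theorem theta_le_card_mul_log {q : ℕ} (a : ZMod q) {x : ℝ} :
    thetaAP a x ≤ (primesAP a x).card * Real.log x := by
  classical
  unfold thetaAP
  rw [← nsmul_eq_mul]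
  refine Finset.sum_le_card_nsmul _ _ _ fun p hp => ?_
  unfold primesAP at hp
  rw [Finset.mem_filter, Finset.mem_Ioc] at hp
  refine Real.log_le_log (by exact_mod_cast hp.1.1) ?_
  exact (Nat.le_floor_iff' hp.1.1.ne').mp hp.1.2

theorem card_mul_log_le {q : ℕ} (a : ZMod q) {x α : ℝ} (hx : 1 ≤ x) (hα : 0 < α) :
    α * Real.log x * (primesAP a x).card ≤ thetaAP a x + α * Real.log x * x ^ α := by
  classical
  have hlog : 0 ≤ Real.log x := Real.log_nonneg hx
  set S := primesAP a x with hS
  have hsplit : S = S.filter (fun p : ℕ => x ^ α < p) ∪ S.filter (fun p : ℕ => ¬ x ^ α < p) := by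
    rw [Finset.filter_union_filter_not_eq]
  have hcard : (S.card : ℝ) ≤ (S.filter (fun p : ℕ => x ^ α < p)).card +
      (S.filter (fun p : ℕ => ¬ x ^ α < p)).card := by
    conv_lhs => rw [hsplit]
    exact_mod_cast Finset.card_union_le _ _
  have hsmall : ((S.filter (fun p : ℕ => ¬ x ^ α < p)).card : ℝ) ≤ x ^ α := by
    have h1 : (S.filter (fun p : ℕ => ¬ x ^ α < p)) ⊆ Finset.Ioc 0 ⌊x ^ α⌋₊ := by
      intro p hp
      rw [Finset.mem_filter, hS] at hp
      unfold primesAP at hp
      rw [Finset.mem_filter, Finset.mem_Ioc] at hp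
      rw [Finset.mem_Ioc]
      exact ⟨hp.1.1.1, Nat.le_floor (not_lt.mp hp.2)⟩
    calc ((S.filter (fun p : ℕ => ¬ x ^ α < p)).card : ℝ) ≤ ((Finset.Ioc 0 ⌊x ^ α⌋₊).card : ℝ) := by
          exact_mod_cast Finset.card_le_card h1
      _ = (⌊x ^ α⌋₊ : ℝ) := by simp
      _ ≤ x ^ α := Nat.floor_le (by positivity)
  have hbig : (S.filter (fun p : ℕ => x ^ α < p)).card * (α * Real.log x) ≤ thetaAP a x := by
    unfold thetaAP
    rw [← hS]
    calc ((S.filter (fun p : ℕ => x ^ α < p)).card : ℝ) * (α * Real.log x) =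
        (S.filter (fun p : ℕ => x ^ α < p)).card • (α * Real.log x) := by rw [nsmul_eq_mul]
      _ ≤ ∑ p ∈ S.filter (fun p : ℕ => x ^ α < p), Real.log p := by
          refine Finset.card_nsmul_le_sum _ _ _ fun p hp => ?_
          rw [Finset.mem_filter] at hp
          rw [← Real.log_rpow (by linarith)]
          exact Real.log_le_log (by positivity) hp.2.le
      _ ≤ ∑ p ∈ S, Real.log p := by
          refine Finset.sum_le_sum_of_subset_of_nonneg (Finset.filter_subset _ _) fun p hp _ => ?_
          rw [hS] at hp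
          unfold primesAP at hp
          rw [Finset.mem_filter, Finset.mem_Ioc] at hp
          exact Real.log_nonneg (by exact_mod_cast hp.1.1)
  have h0 : 0 ≤ α * Real.log x := by positivity
  calc α * Real.log x * (S.card : ℝ) ≤ α * Real.log x *
      ((S.filter (fun p : ℕ => x ^ α < p)).card +
        (S.filter (fun p : ℕ => ¬ x ^ α < p)).card) := by gcongr
    _ = (S.filter (fun p : ℕ => x ^ α < p)).card * (α * Real.log x) +
        α * Real.log x * (S.filter (fun p : ℕ => ¬ x ^ α < p)).card := by ring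
    _ ≤ thetaAP a x + α * Real.log x * x ^ α := by gcongr

/-- The prime number theorem for arithmetic progressions. -/
theorem pi_ap {q : ℕ} [NeZero q] {a : ZMod q} (ha : IsUnit a) :
    Tendsto (fun x : ℝ => (primesAP a x).card * Real.log x / x) atTop (𝓝 (q.totient : ℝ)⁻¹) := by
  have h1 := theta_ap ha
  set A : ℝ := (q.totient : ℝ)⁻¹ with hA
  have hA0 : 0 < A := by
    rw [hA]
    have : 0 < q.totient := Nat.totient_pos.mpr (NeZero.pos q)
    positivity
  rw [tendsto_order]
  constructor
  · intro c hc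
    filter_upwards [(tendsto_order.1 h1).1 c hc, eventually_gt_atTop 1] with x hx hx1
    refine hx.trans_le ?_
    have := theta_le_card_mul_log a (x := x)
    gcongr
  · intro c hc
    -- pick α < 1 with A / α < c
    obtain ⟨α, hα0, hα1, hα⟩ : ∃ α : ℝ, 0 < α ∧ α < 1 ∧ A / α < c := by
      have hc0 : 0 < c := hA0.trans hc
      obtain ⟨α, h3, h4⟩ := exists_between (show A / c < 1 by rwa [div_lt_one hc0])
      have hα0 : 0 < α := lt_trans (by positivity) h3
      refine ⟨α, hα0, h4, ?_⟩
      rw [div_lt_iff₀ hα0]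
      rw [div_lt_iff₀ hc0] at h3
      linarith
    have h2 : Tendsto (fun x : ℝ => (thetaAP a x / x) / α + Real.log x / x ^ (1 - α)) atTop
        (𝓝 (A / α + 0)) := by
      refine Tendsto.add (h1.div_const α) ?_
      exact (isLittleO_log_rpow_atTop (show (0 : ℝ) < 1 - α by linarith)).tendsto_div_nhds_zero
    rw [add_zero] at h2
    filter_upwards [(tendsto_order.1 h2).2 c hα, eventually_gt_atTop 1] with x hx hx1
    refine lt_of_le_of_lt ?_ hx
    have hx0 : 0 < x := by linarith
    have h3 := card_mul_log_le a hx1.le hα0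
    have h4 : x ^ (1 - α) = x / x ^ α := by
      rw [Real.rpow_sub hx0, Real.rpow_one]
    rw [h4]
    have h5 : 0 < x ^ α := by positivity
    have h6 : (thetaAP a x / x) / α + Real.log x / (x / x ^ α) =
        (thetaAP a x + α * Real.log x * x ^ α) / (α * x) := by
      field_simp
    rw [h6, div_le_div_iff₀ hx0 (by positivity)]
    nlinarith

end Pool.Agent.PNT
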