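import Mathlib
import Pool.Agent.PNT.Basic

/-!
Consequences of the prime number theorem: primes in `(αx, βx]`, and statements for all primes.
-/

open Filter Topology Real Set

namespace Pool.Agent.PNT

theorem tendsto_log_ratio {β : ℝ} (hβ : 0 < β) :
    Tendsto (fun x : ℝ => Real.log x / Real.log (β * x)) atTop (𝓝 1) := by
  have h1 : Tendsto (fun x : ℝ => 1 + Real.log β / Real.log x) atTop (𝓝 (1 + 0)) :=
    tendsto_const_nhds.add (Real.tendsto_log_atTop.const_div_atTop _)
  rw [add_zero] at h1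
  have h2 := h1.inv₀ one_ne_zero
  rw [inv_one] at h2
  refine h2.congr' ?_
  filter_upwards [eventually_gt_atTop 1, Real.tendsto_log_atTop.eventually_gt_atTop (-Real.log β)]
    with x hx hx2
  have hl : 0 < Real.log x := Real.log_pos hx
  rw [Real.log_mul hβ.ne' (by linarith)]
  field_simp
  rw [add_comm]

theorem pi_ap_scaled {q : ℕ} [NeZero q] {a : ZMod q} (ha : IsUnit a) {β : ℝ} (hβ : 0 < β) :
    Tendsto (fun x : ℝ => (primesAP a (β * x)).card * Real.log x / x) atTop
      (𝓝 (β * (q.totient : ℝ)⁻¹)) := by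
  have h1 := (pi_ap ha).comp (tendsto_id.const_mul_atTop hβ)
  have h2 := (h1.mul (tendsto_log_ratio hβ)).const_mul β
  rw [mul_one] at h2
  refine h2.congr' ?_
  filter_upwards [eventually_gt_atTop 1, (tendsto_id.const_mul_atTop hβ).eventually_gt_atTop 1]
    with x hx hx2
  simp only [Function.comp, id] at hx2 ⊢
  have hl : 0 < Real.log (β * x) := Real.log_pos hx2
  field_simp

open Classical in
/-- the primes `p ≡ a mod q` with `αx < p ≤ βx` -/
theorem pi_ap_interval {q : ℕ} [NeZero q] {a : ZMod q} (ha : IsUnit a) {α β : ℝ} (hα : 0 < α)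
    (hαβ : α ≤ β) :
    Tendsto (fun x : ℝ => (((Finset.Ioc ⌊α * x⌋₊ ⌊β * x⌋₊).filter
      (fun p : ℕ => p.Prime ∧ (p : ZMod q) = a)).card : ℝ) * Real.log x / x) atTop
      (𝓝 ((β - α) * (q.totient : ℝ)⁻¹)) := by
  have h := (pi_ap_scaled ha (hα.trans_le hαβ)).sub (pi_ap_scaled ha hα)
  rw [← sub_mul] at h
  refine h.congr' ?_
  filter_upwards [eventually_gt_atTop 0] with x hx
  have hle : ⌊α * x⌋₊ ≤ ⌊β * x⌋₊ := Nat.floor_mono (by gcongr)
  have h1 : (primesAP a (β * x)).card = (primesAP a (α * x)).card +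
      ((Finset.Ioc ⌊α * x⌋₊ ⌊β * x⌋₊).filter (fun p : ℕ => p.Prime ∧ (p : ZMod q) = a)).card := by
    unfold primesAP
    rw [← Finset.card_union_of_disjoint, ← Finset.filter_union,
      Finset.Ioc_union_Ioc_eq_Ioc (Nat.zero_le _) hle]
    refine Finset.disjoint_filter_filter ?_
    rw [Finset.disjoint_left]
    intro p hp hp2
    rw [Finset.mem_Ioc] at hp hp2
    omega
  rw [h1]
  push_cast
  ring

/-- primes with `αx < p ≤ βx`, lower bound -/
theorem primes_interval {α β c : ℝ} (hα : 0 < α) (hαβ : α ≤ β) (hc : c < β - α) :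
    ∀ᶠ x : ℝ in atTop, c * x / Real.log x <
      (((Finset.Ioc ⌊α * x⌋₊ ⌊β * x⌋₊).filter Nat.Prime).card : ℝ) := by
  classical
  have h := pi_ap_interval (q := 1) (a := 0) (by
    rw [isUnit_iff_exists_inv]; exact ⟨0, Subsingleton.elim _ _⟩) hα hαβ
  rw [Nat.totient_one, Nat.cast_one, inv_one, mul_one] at h
  filter_upwards [(tendsto_order.1 h).1 c hc, eventually_gt_atTop 1] with x hx hx1
  have hl := Real.log_pos hx1
  have he : ((Finset.Ioc ⌊α * x⌋₊ ⌊β * x⌋₊).filter (fun p : ℕ => p.Prime ∧ (p : ZMod 1) = 0)) =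
      ((Finset.Ioc ⌊α * x⌋₊ ⌊β * x⌋₊).filter Nat.Prime) := by
    refine Finset.filter_congr fun p _ => ?_
    simp [Subsingleton.elim (p : ZMod 1) 0]
  rw [he, lt_div_iff₀ (by linarith)] at hx
  rw [div_lt_iff₀ hl]
  exact hx

/-- The prime number theorem. -/
theorem pi_tendsto : Tendsto (fun x : ℝ => (Nat.primeCounting ⌊x⌋₊ : ℝ) * Real.log x / x) atTop
    (𝓝 1) := by
  have h := pi_ap (q := 1) (a := 0) (by
    rw [isUnit_iff_exists_inv]; exact ⟨0, Subsingleton.elim _ _⟩)
  rw [Nat.totient_one, Nat.cast_one, inv_one] at h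
  refine h.congr fun x => ?_
  congr 3
  unfold primesAP
  rw [Nat.primeCounting, Nat.primeCounting', Nat.count_eq_card_filter_range]
  congr 1
  ext p
  simp only [Finset.mem_filter, Finset.mem_Ioc, Finset.mem_range]
  constructor
  · rintro ⟨⟨_, h2⟩, h3, _⟩
    exact ⟨by omega, h3⟩
  · rintro ⟨h1, h2⟩
    exact ⟨⟨h2.pos, by omega⟩, h2, Subsingleton.elim _ _⟩

theorem theta_tendsto : Tendsto (fun x : ℝ => Chebyshev.theta x / x) atTop (𝓝 1) := by
  have h := theta_ap (q := 1) (a := 0) (by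
    rw [isUnit_iff_exists_inv]; exact ⟨0, Subsingleton.elim _ _⟩)
  rw [Nat.totient_one, Nat.cast_one, inv_one] at h
  refine h.congr fun x => ?_
  congr 1
  unfold thetaAP primesAP Chebyshev.theta
  refine Finset.sum_congr ?_ fun _ _ => rfl
  ext p
  simp [Subsingleton.elim (p : ZMod 1) 0]

theorem psi_tendsto : Tendsto (fun x : ℝ => Chebyshev.psi x / x) atTop (𝓝 1) := by
  have h2 : Tendsto (fun x : ℝ => (Chebyshev.psi x - Chebyshev.theta x) / x) atTop (𝓝 0) := by
    refine squeeze_zero' ?_ ?_ tendsto_sqrt_log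
    · filter_upwards [eventually_gt_atTop 0] with x hx
      exact div_nonneg (sub_nonneg.mpr (Chebyshev.theta_le_psi x)) hx.le
    · filter_upwards [eventually_ge_atTop 1] with x hx
      have := Chebyshev.psi_sub_theta_le hx
      gcongr
  have h3 := theta_tendsto.add h2
  rw [add_zero] at h3
  refine h3.congr fun x => ?_
  ring

end Pool.Agent.PNT
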